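import Pool.Agent.Q193.SH.CGa
import Pool.Agent.Q5.SH.Stm

/-!
# Project SH (helper5), job CG: the counting lemma for abelian groups
-/

set_option autoImplicit false
set_option linter.all false

namespace Pool.Agent.Q193.SH

open scoped Classical

/-- **JOB SH-CG** -/
theorem cg : Pool.Agent.Q5.SH.S_CG := by
  intro p _ A D _ _ P Q W' V' N R hVW _ h2 hN hR hidx X Z Y hX hYW hY hZ
  exact cg_core p A D P Q W' V' N R hVW h2 hN hR hidx X Z Y hX hYW hY hZ

end Pool.Agent.Q193.SH
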