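import Mathlib

/-!
# Project SH (helper5), job CG: the counting lemma for abelian groups
-/

set_option autoImplicit false
set_option linter.all false

namespace Pool.Agent.Q193.SH

open scoped Classical

theorem cg_core (p : ℕ) (A D : Type) [AddCommGroup A] [AddCommGroup D] (P : A →+ D)
    (Q : AddSubgroup A) (W' V' N : AddSubgroup D) (R : AddSubgroup A) (hVW : V' ≤ W')
    (h2 : ∀ d : D, p • d ∈ W' → d ∈ W')
    (hN : ∀ d : D, d ∈ N ↔ ∃ q ∈ Q, ∃ x : D, ∃ v ∈ V', d = P q + p • x + v)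
    (hR : ∀ a : A, a ∈ R ↔ a ∈ Q ∧ ∃ d : D, P a - p • d ∈ V') (hidx : N.index ≠ 0)
    (X Z : Finset A) (Y : Finset D)
    (hX : ∀ x ∈ X, ∀ y ∈ X, (∃ q ∈ Q, ∃ a : A, x - y = q + p • a) → x = y)
    (hYW : ∀ y ∈ Y, y ∈ W')
    (hY : ∀ x ∈ Y, ∀ y ∈ Y, (∃ v ∈ V', ∃ w ∈ W', x - y = v + p • w) → x = y)
    (hZ : ∀ a : A, (∃ d : D, P a - p • d ∈ W') → ∃ z ∈ Z, ∃ c : A, a = z + p • c) :
    (AddMonoidHom.range (p • AddMonoidHom.id A)).relIndex R ≠ 0 ∧
    X.card * Y.card * (AddMonoidHom.range (p • AddMonoidHom.id A)).relIndex R ≤ N.index * Z.card := by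
  set H := AddMonoidHom.range (p • AddMonoidHom.id A) with hH
  have memH : ∀ a : A, p • a ∈ H := fun a => ⟨a, rfl⟩
  have ofH : ∀ a ∈ H, ∃ c : A, a = p • c := by
    rintro a ⟨c, rfl⟩
    exact ⟨c, rfl⟩
  let Rb := R ⧸ (H.addSubgroupOf R)
  let ρ : Rb → R := Quotient.out
  have hρ : ∀ r r' : Rb, ((ρ r : A) - (ρ r' : A)) ∈ H → r = r' := by
    intro r r' h
    rw [← Quotient.out_eq r, ← Quotient.out_eq r']
    symm
    apply (QuotientAddGroup.eq (s := H.addSubgroupOf R)).2
    rw [AddSubgroup.mem_addSubgroupOf]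
    have e : ((-(ρ r') + ρ r : R) : A) = (ρ r : A) - (ρ r' : A) := by
      push_cast
      abel
    show ((-(ρ r') + ρ r : R) : A) ∈ H
    rw [e]
    exact h
  have hRB : ∀ r : A, r ∈ R → ∃ d : D, P r - p • d ∈ W' := by
    intro r hr
    obtain ⟨-, d, hd⟩ := (hR r).1 hr
    exact ⟨d, hVW hd⟩
  have hB : ∀ a a' : A, (∃ d : D, P a - p • d ∈ W') → (∃ d : D, P a' - p • d ∈ W') →
      ∃ d : D, P (a + a') - p • d ∈ W' := by
    rintro a a' ⟨d, hd⟩ ⟨d', hd'⟩
    refine ⟨d + d', ?_⟩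
    have e : P (a + a') - p • (d + d') = (P a - p • d) + (P a' - p • d') := by
      rw [map_add, smul_add]
      abel
    rw [e]
    exact W'.add_mem hd hd'
  -- finiteness
  have hfin : Finite Rb := by
    have h1 : ∀ r : Rb, ∃ z : Z, ∃ c : A, (ρ r : A) = z + p • c := by
      intro r
      obtain ⟨z, hz, c, hc⟩ := hZ (ρ r) (hRB _ (ρ r).2)
      exact ⟨⟨z, hz⟩, c, hc⟩
    choose z c hc using h1
    apply Finite.of_injective z
    intro r r' h
    apply hρ
    have e : (ρ r : A) - (ρ r' : A) = p • (c r - c r') := by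
      rw [hc r, hc r', h, smul_sub]
      abel
    rw [e]
    exact memH _
  have hr0 : H.relIndex R = Nat.card Rb := rfl
  refine ⟨by rw [hr0]; exact Nat.card_pos.ne', ?_⟩
  -- base points
  let f : X × Y → D ⧸ N := fun t => ((P t.1.1 + t.2.1 : D) : D ⧸ N)
  have hbase : ∀ t : X × Y, ∃ t0 : X × Y, f t0 = f t := fun t => ⟨t, rfl⟩
  let g : D ⧸ N → X × Y → X × Y := fun n t => if h : ∃ t0 : X × Y, f t0 = n then h.choose else t
  have hg : ∀ t : X × Y, f (g (f t) t) = f t := by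
    intro t
    have h : ∃ t0 : X × Y, f t0 = f t := ⟨t, rfl⟩
    show f (if h : ∃ t0 : X × Y, f t0 = f t then h.choose else t) = f t
    rw [dif_pos h]
    exact h.choose_spec
  have hg2 : ∀ t t' : X × Y, f t = f t' → g (f t) t = g (f t') t' := by
    intro t t' h
    have h0 : ∃ t0 : X × Y, f t0 = f t := ⟨t, rfl⟩
    have h0' : ∃ t0 : X × Y, f t0 = f t' := ⟨t', rfl⟩
    show (if h : ∃ t0 : X × Y, f t0 = f t then h.choose else t) =
      (if h : ∃ t0 : X × Y, f t0 = f t' then h.choose else t')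
    rw [dif_pos h0, dif_pos h0']
    congr 1
    funext t0
    rw [h]
  have hq : ∀ t : X × Y, ∃ q ∈ Q, ∃ x : D, ∃ v ∈ V',
      P ((g (f t) t).1.1 - t.1.1) + ((g (f t) t).2.1 - t.2.1) = P q + p • x + v := by
    intro t
    rw [← hN]
    have h1 := (QuotientAddGroup.eq (s := N)).1 (hg t).symm
    have e : P ((g (f t) t).1.1 - t.1.1) + ((g (f t) t).2.1 - t.2.1) =
        -(P t.1.1 + t.2.1) + (P (g (f t) t).1.1 + (g (f t) t).2.1) := by
      rw [map_sub]
      abel
    rw [e]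
    exact h1
  choose q hqQ dd v hv hqe using hq
  let b : X × Y → A := fun t => (g (f t) t).1.1 - t.1.1 - q t
  have hbB : ∀ t, ∃ d : D, P (b t) - p • d ∈ W' := by
    intro t
    refine ⟨dd t, ?_⟩
    have e : P (b t) - p • dd t = v t - ((g (f t) t).2.1 - t.2.1) := by
      have h1 := hqe t
      have h3 : P (b t) = P ((g (f t) t).1.1 - t.1.1) - P (q t) := map_sub P _ _
      rw [h3]
      have h4 : P ((g (f t) t).1.1 - t.1.1) = P (q t) + p • dd t + v t - ((g (f t) t).2.1 - t.2.1) := by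
        rw [← h1]
        abel
      rw [h4]
      abel
    rw [e]
    exact W'.sub_mem (hVW (hv t)) (W'.sub_mem (hYW _ (g (f t) t).2.2) (hYW _ t.2.2))
  have hz : ∀ s : (X × Y) × Rb, ∃ z : Z, ∃ c : A, b s.1 + (ρ s.2 : A) = z + p • c := by
    intro s
    obtain ⟨z, hz, c, hc⟩ := hZ (b s.1 + (ρ s.2 : A)) (hB _ _ (hbB s.1) (hRB _ (ρ s.2).2))
    exact ⟨⟨z, hz⟩, c, hc⟩
  choose z c hc using hz
  let F : (X × Y) × Rb → (D ⧸ N) × Z := fun s => (f s.1, z s)
  have hF : Function.Injective F := by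
    rintro ⟨t, r⟩ ⟨t', r'⟩ h
    have hn : f t = f t' := congrArg Prod.fst h
    have hzz : z (t, r) = z (t', r') := congrArg Prod.snd h
    have hgg := hg2 t t' hn
    have e1 : (b t + (ρ r : A)) - (b t' + (ρ r' : A)) = p • (c (t, r) - c (t', r')) := by
      have g1 := hc (t, r)
      have g2 := hc (t', r')
      simp only at g1 g2
      rw [g1, g2, hzz, smul_sub]
      abel
    have hrQ : (ρ r' : A) - (ρ r : A) ∈ R := R.sub_mem (ρ r').2 (ρ r).2
    have hrQ' := ((hR _).1 hrQ).1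
    have hxx : t.1 = t'.1 := by
      apply Subtype.ext
      symm
      apply hX _ t'.1.2 _ t.1.2
      refine ⟨((ρ r' : A) - (ρ r : A)) + (q t - q t'), Q.add_mem hrQ' (Q.sub_mem (hqQ t) (hqQ t')),
        c (t, r) - c (t', r'), ?_⟩
      rw [← e1]
      show t'.1.1 - t.1.1 = _ + (((g (f t) t).1.1 - t.1.1 - q t + (ρ r : A)) -
        ((g (f t') t').1.1 - t'.1.1 - q t' + (ρ r' : A)))
      rw [hgg]
      abel
    have hyy : t.2 = t'.2 := by
      apply Subtype.ext
      symm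
      apply hY _ t'.2.2 _ t.2.2
      obtain ⟨-, e, he⟩ := (hR _).1 hrQ
      have e2 : q t' - q t = ((ρ r' : A) - (ρ r : A)) + p • (c (t, r) - c (t', r')) := by
        rw [← e1]
        show q t' - q t = _ + (((g (f t) t).1.1 - t.1.1 - q t + (ρ r : A)) -
          ((g (f t') t').1.1 - t'.1.1 - q t' + (ρ r' : A)))
        rw [hgg, hxx]
        abel
      have e3 : t'.2.1 - t.2.1 = P (q t - q t') + p • (dd t - dd t') + (v t - v t') := by
        have g1 := hqe t
        have g2 := hqe t'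
        rw [← hgg, ← hxx] at g2
        have g3 : t'.2.1 - t.2.1 = (P ((g (f t) t).1.1 - t.1.1) + ((g (f t) t).2.1 - t.2.1)) -
          (P ((g (f t) t).1.1 - t.1.1) + ((g (f t) t).2.1 - t'.2.1)) := by abel
        rw [g3, g1, g2, map_sub, smul_sub]
        abel
      have e4 : P (q t - q t') = -(P ((ρ r' : A) - (ρ r : A))) - p • P (c (t, r) - c (t', r')) := by
        have g1 : q t - q t' = -(q t' - q t) := by abel
        rw [g1, e2, map_neg, map_add, map_nsmul]
        abel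
      have e5 : t'.2.1 - t.2.1 = (-(P ((ρ r' : A) - (ρ r : A)) - p • e) + (v t - v t')) +
          p • (dd t - dd t' - e - P (c (t, r) - c (t', r'))) := by
        rw [e3, e4]
        simp only [smul_sub]
        abel
      have hv' : -(P ((ρ r' : A) - (ρ r : A)) - p • e) + (v t - v t') ∈ V' :=
        V'.add_mem (V'.neg_mem he) (V'.sub_mem (hv t) (hv t'))
      refine ⟨_, hv', _, ?_, e5⟩
      apply h2
      have e6 : p • (dd t - dd t' - e - P (c (t, r) - c (t', r'))) = (t'.2.1 - t.2.1) -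
          (-(P ((ρ r' : A) - (ρ r : A)) - p • e) + (v t - v t')) := by
        rw [e5]
        abel
      rw [e6]
      exact W'.sub_mem (W'.sub_mem (hYW _ t'.2.2) (hYW _ t.2.2)) (hVW hv')
    have htt : t = t' := Prod.ext hxx hyy
    subst htt
    have hrr : r = r' := by
      apply hρ
      have e7 : (ρ r : A) - (ρ r' : A) = p • (c (t, r) - c (t, r')) := by
        rw [← e1]
        abel
      rw [e7]
      exact memH _
    rw [hrr]
  haveI : Finite (D ⧸ N) := by
    rw [AddSubgroup.index] at hidx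
    exact (Nat.card_ne_zero.1 hidx).2
  have hcard := Nat.card_le_card_of_injective F hF
  rw [Nat.card_prod, Nat.card_prod, Nat.card_prod] at hcard
  rw [hr0]
  have hx : Nat.card X = X.card := Nat.card_eq_finsetCard X
  have hy : Nat.card Y = Y.card := Nat.card_eq_finsetCard Y
  have hz' : Nat.card Z = Z.card := Nat.card_eq_finsetCard Z
  rw [hx, hy, hz'] at hcard
  exact hcard

end Pool.Agent.Q193.SH
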