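import Pool.Agent.Q193.SH.DUa
import Pool.Agent.Q5.SH.Stm
import Pool.Agent.Y18.LC.Loc

/-!
# Project SH (helper5), job DU
-/

set_option autoImplicit false
set_option linter.all false

namespace Pool.Agent.Q193.SH

open NumberField Pool.Agent.Y18.LC

/-- **JOB SH-DU** -/
theorem du : Pool.Agent.Q5.SH.S_DU := by
  intro p _ hp2 K M _ _ _ _ _ _ hun m hm ζ hζ A r hr X hX ξ hξ e he g₀
  have hp : p.Prime := Fact.out
  have hω : IsPrimitiveRoot (ζ ^ p ^ (m - 1)) p := by
    have h1 := hζ.pow (pow_pos hp.pos m) (a := p ^ (m - 1)) (b := p)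
      (by rw [← pow_succ, Nat.sub_add_cancel hm])
    exact h1
  have hex : ∃ g : M ≃ₐ[K] M, g (ζ ^ p ^ (m - 1)) ≠ ζ ^ p ^ (m - 1) := by
    by_contra hne
    push Not at hne
    have h1 : ζ ^ p ^ (m - 1) ∈ (⊥ : IntermediateField K M) :=
      (IsGalois.mem_bot_iff_fixed _).2 hne
    obtain ⟨w, hw⟩ := IntermediateField.mem_bot.1 h1
    have hw1 : w ^ p = 1 := by
      apply (algebraMap K M).injective
      rw [map_pow, hw, hω.pow_eq_one, map_one]
    have hint : IsIntegral ℤ w := by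
      refine IsIntegral.of_pow hp.pos ?_
      rw [hw1]
      exact isIntegral_one
    obtain ⟨z, hz⟩ : ∃ z : 𝓞 K, algebraMap (𝓞 K) K z = w := ⟨⟨w, hint⟩, rfl⟩
    have h2 : z ^ p = 1 := by
      apply RingOfIntegers.coe_injective
      rw [map_pow, hz, hw1, map_one]
    have h3 := no_torsion hp hp2 hun h2
    have h4 : w = 1 := by rw [← hz, h3, map_one]
    rw [h4, map_one] at hw
    exact hp.one_lt.ne' (hω.unique (by rw [← hw]; exact IsPrimitiveRoot.one))
  obtain ⟨h0, hh0⟩ := hex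
  exact du_core hp (by omega) hζ A r hr X hX ξ hξ e he g₀ h0 hh0

end Pool.Agent.Q193.SH
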