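import Mathlib

/-!
# Project SH (helper5), job DU: independence of Kummer characters (general fields)
-/

set_option autoImplicit false
set_option linter.all false

namespace Pool.Agent.Q193.SH

open scoped Classical

theorem finite_homU (G : Type) [Group G] [Finite G] : Finite (G →* ℂˣ) := by
  have hN : NeZero (Nat.card G) := ⟨Nat.card_pos.ne'⟩
  let S := rootsOfUnity (Nat.card G) ℂ
  have hfin : Finite (G → S) := inferInstance
  refine Finite.of_injective (fun (f : G →* ℂˣ) (g : G) => (⟨f g, by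
    rw [mem_rootsOfUnity, ← map_pow, pow_card_eq_one', map_one]⟩ : S)) ?_
  intro f f' h
  ext g
  have h1 := congrArg Subtype.val (congrFun h g)
  exact congrArg Units.val h1

theorem neZero_expU (G : Type) [Group G] [Finite G] : NeZero (Monoid.exponent G) :=
  ⟨Monoid.exponent_ne_zero_of_finite⟩

theorem dual_ev {G : Type} [Group G] [Finite G] (e : (G →* ℂˣ) →* ℂˣ) : ∃ a : G, ∀ ψ : G →* ℂˣ, ψ a = e ψ := by
  have hf1 : Finite (G →* ℂˣ) := finite_homU G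
  have hf2 : Finite ((G →* ℂˣ) →* ℂˣ) := finite_homU _
  have hz1 : NeZero (Monoid.exponent (G →* ℂˣ)) := neZero_expU _
  have hz2 : NeZero (Monoid.exponent ((G →* ℂˣ) →* ℂˣ)) := neZero_expU _
  have h1 : e ∈ (⊤ : Subgroup G).map (MonoidHom.eval : G →* (G →* ℂˣ) →* ℂˣ) := by
    rw [← CommGroup.forall_monoidHom_apply_eq_one_iff (M := ℂ)]
    intro φ hφ
    set ψ := CommGroup.monoidHomMonoidHomEquiv (G →* ℂˣ) ℂ φ with hψ
    have h2 : ∀ η : (G →* ℂˣ) →* ℂˣ, η ψ = φ η := fun η =>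
      CommGroup.apply_monoidHomMonoidHomEquiv (M := ℂ) η φ
    rw [← h2]
    have h5 : ψ = 1 := by
      ext g
      have h3 := hφ (MonoidHom.eval g) (Subgroup.mem_map_of_mem _ (Subgroup.mem_top g))
      rw [← h2] at h3
      exact congrArg Units.val h3
    rw [h5, map_one]
  obtain ⟨a, -, hae⟩ := Subgroup.mem_map.1 h1
  exact ⟨a, fun ψ => by rw [← hae]; rfl⟩

/-- extension and evaluation -/
theorem ext_ev {G B : Type} [Group G] [Finite G] [CommGroup B] (Φ : B →* (G →* ℂˣ)) (Θ : B →* ℂˣ)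
    (h : ∀ t, Φ t = 1 → Θ t = 1) : ∃ a : G, ∀ t, Φ t a = Θ t := by
  have hf1 : Finite (G →* ℂˣ) := finite_homU G
  have hz1 : NeZero (Monoid.exponent (G →* ℂˣ)) := neZero_expU _
  have hf3 : Finite (Φ.range) := inferInstance
  have hf4 : Finite (Φ.range →* ℂˣ) := finite_homU _
  have hf5 : Finite ((G →* ℂˣ) →* ℂˣ) := finite_homU _
  have hle : Φ.ker ≤ Θ.ker := fun t ht => h t (MonoidHom.mem_ker.1 ht)
  let θ : Φ.range →* ℂˣ := (QuotientGroup.lift Φ.ker Θ hle).comp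
    (QuotientGroup.quotientKerEquivRange Φ).symm.toMonoidHom
  have hθ : ∀ t, θ ⟨Φ t, t, rfl⟩ = Θ t := by
    intro t
    have h1 : (QuotientGroup.quotientKerEquivRange Φ).symm ⟨Φ t, t, rfl⟩ = (t : B ⧸ Φ.ker) :=
      (MulEquiv.symm_apply_eq _).2 rfl
    show (QuotientGroup.lift Φ.ker Θ hle) ((QuotientGroup.quotientKerEquivRange Φ).symm ⟨Φ t, t, rfl⟩) = Θ t
    rw [h1]
    rfl
  obtain ⟨η, hη⟩ := MonoidHom.domRestrict_surjective (M := ℂ) Φ.range θ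
  obtain ⟨a, ha⟩ := dual_ev η
  refine ⟨a, fun t => ?_⟩
  rw [ha, ← hθ t, ← hη]
  rfl

/-- a character on the powers of `ζ` -/
noncomputable def Tz {M : Type} [Field M] (ζ : M) (ξ : ℂˣ) (z : M) : ℂˣ :=
  if h : ∃ k : ℕ, z = ζ ^ k then ξ ^ h.choose else 1

theorem pow_iff {M : Type} [Field M] {ζ : M} {ξ : ℂˣ} {n : ℕ} (hn : 0 < n) (hζ : IsPrimitiveRoot ζ n)
    (hξ : IsPrimitiveRoot ξ n) (k k' : ℕ) : ζ ^ k = ζ ^ k' ↔ ξ ^ k = ξ ^ k' := by
  have hu := hζ.isUnit hn.ne'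
  obtain ⟨u, hu'⟩ := hu
  have hu2 : IsPrimitiveRoot u n := by
    rw [← hu'] at hζ
    exact IsPrimitiveRoot.coe_units_iff.1 hζ
  have h1 : ζ ^ k = ζ ^ k' ↔ u ^ k = u ^ k' := by
    rw [← hu']
    constructor
    · intro h
      apply Units.ext
      push_cast
      exact h
    · intro h
      have := congrArg Units.val h
      push_cast at this
      exact this
  rw [h1, pow_eq_pow_iff_modEq, pow_eq_pow_iff_modEq, ← hu2.eq_orderOf, ← hξ.eq_orderOf]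

theorem Tz_pow {M : Type} [Field M] {ζ : M} {ξ : ℂˣ} {n : ℕ} (hn : 0 < n) (hζ : IsPrimitiveRoot ζ n)
    (hξ : IsPrimitiveRoot ξ n) (k : ℕ) : Tz ζ ξ (ζ ^ k) = ξ ^ k := by
  have h : ∃ k' : ℕ, ζ ^ k = ζ ^ k' := ⟨k, rfl⟩
  unfold Tz
  rw [dif_pos h]
  exact ((pow_iff hn hζ hξ _ _).1 h.choose_spec).symm

/-- the kernel of the job DU: general fields -/
theorem du_core {p : ℕ} (hp : p.Prime) {K M : Type} [Field K] [Field M] [Algebra K M]
    [FiniteDimensional K M] [IsGalois K M] {m : ℕ} (hm : m ≠ 0) {ζ : M} (hζ : IsPrimitiveRoot ζ (p ^ m))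
    (A : Subgroup Kˣ) (r : Kˣ → M) (hr : ∀ b ∈ A, r b ^ p ^ m = algebraMap K M (b : K))
    (X : Subgroup ((M ≃ₐ[K] M) →* ℂˣ))
    (hX : ∀ ψ ∈ X, (∀ g : M ≃ₐ[K] M, g ζ = ζ → ψ g = 1) → ψ = 1)
    (ξ : ℂˣ) (hξ : IsPrimitiveRoot ξ (p ^ m)) (e : Additive Kˣ →+ Additive ℂˣ)
    (he : ∀ x, p ^ m • e x = 0) (g₀ : M ≃ₐ[K] M)
    (h0 : M ≃ₐ[K] M) (hh0 : h0 (ζ ^ p ^ (m - 1)) ≠ ζ ^ p ^ (m - 1)) :
    ∃ g : M ≃ₐ[K] M, g ζ = ζ ∧ (∀ ψ ∈ X, ψ g = ψ g₀) ∧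
      ∀ b ∈ A, ∀ k : ℕ, e (Additive.ofMul b) = k • Additive.ofMul ξ → g (r b) = ζ ^ k * r b := by
  have hpm : 0 < p ^ m := pow_pos hp.pos _
  have hNZ : NeZero (p ^ m) := ⟨hpm.ne'⟩
  have hζ0 : ζ ≠ 0 := hζ.ne_zero hpm.ne'
  have hr0 : ∀ b ∈ A, r b ≠ 0 := by
    intro b hb h0
    have h1 := hr b hb
    rw [h0, zero_pow hpm.ne'] at h1
    exact b.ne_zero ((map_eq_zero (algebraMap K M)).1 h1.symm)
  have keyn : ∀ (s : M ≃ₐ[K] M) (x : M), x ≠ 0 → (∃ y : K, x ^ p ^ m = algebraMap K M y) →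
      ∃ k : ℕ, s x = ζ ^ k * x := by
    rintro s x hx ⟨y, hy⟩
    have h1 : (s x / x) ^ p ^ m = 1 := by
      rw [div_pow, ← map_pow, hy, AlgEquiv.commutes, div_self]
      rw [← hy]
      exact pow_ne_zero _ hx
    obtain ⟨k, -, hk⟩ := hζ.eq_pow_of_pow_eq_one h1
    exact ⟨k, by rw [hk, div_mul_cancel₀ _ hx]⟩
  have key : ∀ (s : M ≃ₐ[K] M) (b : Kˣ), b ∈ A → ∃ k : ℕ, s (r b) = ζ ^ k * r b :=
    fun s b hb => keyn s _ (hr0 b hb) ⟨b, hr b hb⟩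
  have keyζ : ∀ s : M ≃ₐ[K] M, ∃ κ : ℕ, s ζ = ζ ^ κ := by
    intro s
    have h1 : (s ζ) ^ p ^ m = 1 := by rw [← map_pow, hζ.pow_eq_one, map_one]
    obtain ⟨k, -, hk⟩ := hζ.eq_pow_of_pow_eq_one h1
    exact ⟨k, hk.symm⟩
  obtain ⟨κ, hκ⟩ := keyζ h0
  -- `p` does not divide `κ - 1`
  have h7 : ¬ (p : ℤ) ∣ (κ : ℤ) - 1 := by
    intro hd
    apply hh0
    have hω : (ζ ^ p ^ (m - 1)) ^ p = 1 := by
      rw [← pow_mul, ← pow_succ, Nat.sub_add_cancel (Nat.one_le_iff_ne_zero.2 hm), hζ.pow_eq_one]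
    rw [map_pow, hκ, ← pow_mul, mul_comm κ, pow_mul]
    obtain ⟨q, hq⟩ := hd
    rcases Nat.eq_zero_or_pos κ with h0 | h0
    · exfalso
      rw [h0] at hq
      have h9 : (p : ℤ) ∣ 1 := ⟨-q, by push_cast at hq; linarith⟩
      exact hp.one_lt.ne' (by exact_mod_cast Int.eq_one_of_dvd_one (by positivity) h9)
    · have h9 : p ∣ κ - 1 := by
        rw [← Int.natCast_dvd_natCast, Nat.cast_sub h0]
        exact ⟨q, by push_cast; exact hq⟩
      obtain ⟨t, ht⟩ := h9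
      have h10 : κ = p * t + 1 := by omega
      rw [h10, pow_succ, pow_mul, hω, one_pow, one_mul]
  have hcop : IsCoprime ((κ : ℤ) - 1) ((p ^ m : ℕ) : ℤ) := by
    push_cast
    exact (((Nat.prime_iff_prime_int.1 hp).coprime_iff_not_dvd.2 h7).symm).pow_right
  -- the group
  let Gz : Subgroup (M ≃ₐ[K] M) :=
    { carrier := {g | g ζ = ζ}
      mul_mem' := by
        intro g h hg hh
        show (g * h) ζ = ζ
        rw [AlgEquiv.mul_apply, show h ζ = ζ from hh]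
        exact hg
      one_mem' := rfl
      inv_mem' := by
        intro g hg
        show g⁻¹ ζ = ζ
        have h1 : g⁻¹ (g ζ) = ζ := by
          rw [← AlgEquiv.mul_apply, inv_mul_cancel, AlgEquiv.one_apply]
        rwa [show g ζ = ζ from hg] at h1 }
  have memGz : ∀ g : M ≃ₐ[K] M, g ∈ Gz ↔ g ζ = ζ := fun g => Iff.rfl
  have hT : ∀ (g : M ≃ₐ[K] M) (x : M) (k : ℕ), x ≠ 0 → g x = ζ ^ k * x → Tz ζ ξ (g x / x) = ξ ^ k := by
    intro g x k hx h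
    rw [h, mul_div_cancel_right₀ _ hx]
    exact Tz_pow hpm hζ hξ k
  let kc : A → Gz →* ℂˣ := fun b =>
    { toFun := fun g => Tz ζ ξ ((g : M ≃ₐ[K] M) (r b) / r b)
      map_one' := by
        have h1 : ((1 : Gz) : M ≃ₐ[K] M) (r b) = ζ ^ 0 * r b := by
          rw [pow_zero, one_mul]
          rfl
        rw [hT _ _ 0 (hr0 b b.2) h1, pow_zero]
      map_mul' := by
        intro g h
        obtain ⟨i, hi⟩ := key g b b.2
        obtain ⟨j, hj⟩ := key h b b.2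
        have h1 : ((g * h : Gz) : M ≃ₐ[K] M) (r b) = ζ ^ (i + j) * r b := by
          show (g : M ≃ₐ[K] M) ((h : M ≃ₐ[K] M) (r b)) = _
          rw [hj, map_mul, map_pow, show (g : M ≃ₐ[K] M) ζ = ζ from g.2, hi, pow_add]
          ring
        rw [hT _ _ _ (hr0 b b.2) h1, hT _ _ _ (hr0 b b.2) hi, hT _ _ _ (hr0 b b.2) hj, pow_add] }
  have kc_apply : ∀ (b : A) (g : Gz) (k : ℕ), (g : M ≃ₐ[K] M) (r b) = ζ ^ k * r b → kc b g = ξ ^ k :=
    fun b g k h => hT _ _ _ (hr0 b b.2) h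
  have kc_mul : ∀ b b' : A, kc (b * b') = kc b * kc b' := by
    intro b b'
    apply MonoidHom.ext
    intro g
    obtain ⟨i, hi⟩ := key g b b.2
    obtain ⟨j, hj⟩ := key g b' b'.2
    have hbb : r ((b * b' : A) : Kˣ) ^ p ^ m = (r b * r b') ^ p ^ m := by
      rw [hr _ (b * b').2, mul_pow, hr b b.2, hr b' b'.2, ← map_mul]
      rfl
    have hne : r b * r b' ≠ 0 := mul_ne_zero (hr0 b b.2) (hr0 b' b'.2)
    have h1 : (r ((b * b' : A) : Kˣ) / (r b * r b')) ^ p ^ m = 1 := by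
      rw [div_pow, hbb, div_self (pow_ne_zero _ hne)]
    obtain ⟨c, -, hc⟩ := hζ.eq_pow_of_pow_eq_one h1
    have h2 : r ((b * b' : A) : Kˣ) = ζ ^ c * (r b * r b') := by
      rw [hc, div_mul_cancel₀ _ hne]
    have h3 : (g : M ≃ₐ[K] M) (r ((b * b' : A) : Kˣ)) = ζ ^ (i + j) * r ((b * b' : A) : Kˣ) := by
      rw [h2, map_mul, map_pow, map_mul, show (g : M ≃ₐ[K] M) ζ = ζ from g.2, hi, hj, pow_add]
      ring
    rw [MonoidHom.mul_apply, kc_apply _ g _ h3, kc_apply b g i hi, kc_apply b' g j hj, pow_add]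
  have kc_one : kc 1 = 1 := by
    have h1 := kc_mul 1 1
    rw [one_mul] at h1
    apply MonoidHom.ext
    intro g
    have h2 : kc 1 g = kc 1 g * kc 1 g := congrArg (fun f : Gz →* ℂˣ => f g) h1
    exact (left_eq_mul.1 h2)
  let Φ : A × X →* (Gz →* ℂˣ) :=
    { toFun := fun t => kc t.1 * (t.2 : (M ≃ₐ[K] M) →* ℂˣ).comp Gz.subtype
      map_one' := by
        show kc 1 * ((1 : (M ≃ₐ[K] M) →* ℂˣ)).comp Gz.subtype = 1
        rw [kc_one]
        apply MonoidHom.ext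
        intro g
        exact one_mul (1 : ℂˣ)
      map_mul' := by
        intro s t
        show kc (s.1 * t.1) * ((s.2 : (M ≃ₐ[K] M) →* ℂˣ) * (t.2 : (M ≃ₐ[K] M) →* ℂˣ)).comp Gz.subtype = _
        rw [kc_mul]
        apply MonoidHom.ext
        intro g
        show (kc s.1 g * kc t.1 g) * ((s.2 : (M ≃ₐ[K] M) →* ℂˣ) g * (t.2 : (M ≃ₐ[K] M) →* ℂˣ) g) =
          (kc s.1 g * (s.2 : (M ≃ₐ[K] M) →* ℂˣ) g) * (kc t.1 g * (t.2 : (M ≃ₐ[K] M) →* ℂˣ) g)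
        exact mul_mul_mul_comm _ _ _ _ }
  let Θ : A × X →* ℂˣ :=
    { toFun := fun t => (e (Additive.ofMul (t.1 : Kˣ))).toMul * (t.2 : (M ≃ₐ[K] M) →* ℂˣ) g₀
      map_one' := by
        show (e (Additive.ofMul (1 : Kˣ))).toMul * (1 : (M ≃ₐ[K] M) →* ℂˣ) g₀ = 1
        rw [ofMul_one, map_zero, MonoidHom.one_apply, mul_one]
        rfl
      map_mul' := by
        intro s t
        show (e (Additive.ofMul ((s.1 : Kˣ) * (t.1 : Kˣ)))).toMul *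
          ((s.2 : (M ≃ₐ[K] M) →* ℂˣ) g₀ * (t.2 : (M ≃ₐ[K] M) →* ℂˣ) g₀) = _
        rw [ofMul_mul, map_add, toMul_add]
        exact mul_mul_mul_comm _ _ _ _ }
  have hker : ∀ t, Φ t = 1 → Θ t = 1 := by
    rintro ⟨b, ψ⟩ ht
    have hval : ∀ g : Gz, kc b g * (ψ : (M ≃ₐ[K] M) →* ℂˣ) g = 1 := fun g =>
      congrArg (fun f : Gz →* ℂˣ => f g) ht
    -- `κ_b = 1`
    have hk1 : ∀ g : Gz, kc b g = 1 := by
      intro g
      obtain ⟨i, hi⟩ := key g b b.2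
      have hgi := kc_apply b g i hi
      -- the conjugate
      obtain ⟨j, hj⟩ := key h0⁻¹ b b.2
      obtain ⟨κ', hκ'⟩ := keyζ h0⁻¹
      have hc1 : (h0 * g * h0⁻¹) ζ = ζ := by
        rw [AlgEquiv.mul_apply, hκ', map_pow, AlgEquiv.mul_apply, show (g : M ≃ₐ[K] M) ζ = ζ from g.2,
          ← map_pow, ← hκ', ← AlgEquiv.mul_apply, mul_inv_cancel, AlgEquiv.one_apply]
      have hc2 : (h0 * g * h0⁻¹) (r b) = ζ ^ (κ * i) * r b := by
        rw [AlgEquiv.mul_apply, hj, AlgEquiv.mul_apply]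
        have h5 : (g : M ≃ₐ[K] M) (ζ ^ j * r b) = ζ ^ i * h0⁻¹ (r b) := by
          rw [hj, map_mul, map_pow, show (g : M ≃ₐ[K] M) ζ = ζ from g.2, hi]
          ring
        rw [h5, map_mul, map_pow, hκ, ← AlgEquiv.mul_apply, mul_inv_cancel, AlgEquiv.one_apply, ← pow_mul]
      have hc3 := kc_apply b ⟨h0 * g * h0⁻¹, hc1⟩ _ hc2
      have hc4 := hval ⟨h0 * g * h0⁻¹, hc1⟩
      have hc5 : (ψ : (M ≃ₐ[K] M) →* ℂˣ) (h0 * g * h0⁻¹) = (ψ : (M ≃ₐ[K] M) →* ℂˣ) g := by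
        rw [map_mul, map_mul, map_inv, mul_comm ((ψ : (M ≃ₐ[K] M) →* ℂˣ) h0), mul_assoc, mul_inv_cancel, mul_one]
      have hc6 : ξ ^ (κ * i) = ξ ^ i := by
        have g1 := hval g
        rw [hgi] at g1
        have g2 : kc b ⟨h0 * g * h0⁻¹, hc1⟩ * (ψ : (M ≃ₐ[K] M) →* ℂˣ) (h0 * g * h0⁻¹) = 1 := hc4
        rw [hc3, hc5] at g2
        exact mul_right_cancel (g2.trans g1.symm)
      rw [hgi]
      have hc7 : ξ ^ (((κ : ℤ) - 1) * i) = 1 := by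
        rw [sub_mul, one_mul, zpow_sub, ← Nat.cast_mul, zpow_natCast, zpow_natCast, hc6, mul_inv_cancel]
      have hc8 := (hξ.zpow_eq_one_iff_dvd _).1 hc7
      have hc9 := hcop.symm.dvd_of_dvd_mul_left hc8
      rw [← zpow_natCast]
      exact (hξ.zpow_eq_one_iff_dvd _).2 hc9
    have hψ : (ψ : (M ≃ₐ[K] M) →* ℂˣ) = 1 := by
      apply hX _ ψ.2
      intro g hg
      have g1 := hval ⟨g, hg⟩
      rw [hk1, one_mul] at g1
      exact g1
    -- `b` is a power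
    have hfix : ∀ g : M ≃ₐ[K] M, g ζ = ζ → g (r b) = r b := by
      intro g hg
      obtain ⟨i, hi⟩ := key g b b.2
      have g1 := hk1 ⟨g, hg⟩
      rw [kc_apply b ⟨g, hg⟩ i hi] at g1
      have g2 : ζ ^ i = ζ ^ 0 := (pow_iff hpm hζ hξ i 0).2 (by rw [g1, pow_zero])
      rw [hi, g2, pow_zero, one_mul]
    obtain ⟨c0, hc0⟩ := key h0 b b.2
    obtain ⟨u, v, huv⟩ := hcop
    -- `u (κ - 1) + v n = 1`
    obtain ⟨s, hs⟩ : ∃ s : M, s = r b * ζ ^ (-(u * c0)) := ⟨_, rfl⟩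
    have hs0 : s ≠ 0 := by
      rw [hs]
      exact mul_ne_zero (hr0 b b.2) (zpow_ne_zero _ hζ0)
    have hsfix : ∀ g : M ≃ₐ[K] M, g ζ = ζ → g s = s := by
      intro g hg
      rw [hs, map_mul, map_zpow₀, hg, hfix g hg]
    have hsn : s ^ p ^ m = algebraMap K M ((b : Kˣ) : K) := by
      rw [hs, mul_pow, hr b b.2, ← zpow_natCast (ζ ^ (-(u * (c0 : ℤ)))), ← zpow_mul, mul_comm _ ((p ^ m : ℕ) : ℤ),
        zpow_mul, zpow_natCast, hζ.pow_eq_one, one_zpow, mul_one]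
    have hs1 : h0 s = s := by
      rw [hs, map_mul, map_zpow₀, hκ, hc0, ← zpow_natCast ζ κ, ← zpow_mul, ← zpow_natCast ζ c0]
      have h1 : ζ ^ (c0 : ℤ) * r b * ζ ^ ((κ : ℤ) * (-(u * (c0 : ℤ)))) =
          r b * (ζ ^ (c0 : ℤ) * ζ ^ ((κ : ℤ) * (-(u * (c0 : ℤ))))) := by ring
      rw [h1, ← zpow_add₀ hζ0]
      congr 1
      have h2 : (c0 : ℤ) + (κ : ℤ) * (-(u * (c0 : ℤ))) = -(u * (c0 : ℤ)) + ((p ^ m : ℕ) : ℤ) * (v * c0) := by
        have h3 : (c0 : ℤ) = c0 * (u * ((κ : ℤ) - 1) + v * ((p ^ m : ℕ) : ℤ)) := by rw [huv, mul_one]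
        linear_combination h3
      rw [h2, zpow_add₀ hζ0, zpow_mul ζ ((p ^ m : ℕ) : ℤ), zpow_natCast, hζ.pow_eq_one, one_zpow, mul_one]
    have hall : ∀ h : M ≃ₐ[K] M, h s = s := by
      intro h
      obtain ⟨c, hc⟩ := keyn h s hs0 ⟨_, hsn⟩
      obtain ⟨κ', hκ'⟩ := keyζ h
      have h1 : ((h * h0)⁻¹ * (h0 * h)) ζ = ζ := by
        have h2 : (h0 * h) ζ = (h * h0) ζ := by
          rw [AlgEquiv.mul_apply, AlgEquiv.mul_apply, hκ', hκ, map_pow, map_pow, hκ, hκ', ← pow_mul, ← pow_mul,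
            mul_comm]
        rw [AlgEquiv.mul_apply, h2, ← AlgEquiv.mul_apply, inv_mul_cancel, AlgEquiv.one_apply]
      have h2 := hsfix _ h1
      have h3 : (h0 * h) s = (h * h0) s := by
        have h4 := congrArg (h * h0) h2
        rw [← AlgEquiv.mul_apply, mul_inv_cancel_left] at h4
        exact h4
      rw [AlgEquiv.mul_apply, AlgEquiv.mul_apply, hs1, hc, map_mul, map_pow, hs1, hκ] at h3
      have h4 : (ζ ^ κ) ^ c = ζ ^ c := mul_right_cancel₀ hs0 h3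
      have h5 : ζ ^ (((κ : ℤ) - 1) * c) = 1 := by
        rw [sub_mul, one_mul, zpow_sub₀ hζ0, zpow_mul, zpow_natCast, zpow_natCast, zpow_natCast, h4,
          div_self (pow_ne_zero _ hζ0)]
      have h6 := (hζ.zpow_eq_one_iff_dvd _).1 h5
      have hcop' : IsCoprime ((κ : ℤ) - 1) ((p ^ m : ℕ) : ℤ) := ⟨u, v, huv⟩
      have h8 := hcop'.symm.dvd_of_dvd_mul_left h6
      have h9 : ζ ^ c = 1 := by
        rw [← zpow_natCast]
        exact (hζ.zpow_eq_one_iff_dvd _).2 h8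
      rw [hc, h9, one_mul]
    have hbot : s ∈ (⊥ : IntermediateField K M) := (IsGalois.mem_bot_iff_fixed _).2 hall
    obtain ⟨k, hk⟩ := IntermediateField.mem_bot.1 hbot
    have hk0 : k ≠ 0 := by
      rintro rfl
      rw [map_zero] at hk
      exact hs0 hk.symm
    have hbk : (b : Kˣ) = (Units.mk0 k hk0) ^ p ^ m := by
      apply Units.ext
      apply (algebraMap K M).injective
      rw [Units.val_pow_eq_pow_val, Units.val_mk0, map_pow, hk, hsn]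
    show (e (Additive.ofMul (b : Kˣ))).toMul * (ψ : (M ≃ₐ[K] M) →* ℂˣ) g₀ = 1
    rw [hψ, hbk, ofMul_pow, map_nsmul, he, MonoidHom.one_apply, mul_one]
    rfl
  obtain ⟨a, ha⟩ := ext_ev Φ Θ hker
  refine ⟨a, a.2, ?_, ?_⟩
  · intro ψ hψ
    have h1 := ha (1, ⟨ψ, hψ⟩)
    have h2 : kc 1 a * ψ a = (e (Additive.ofMul ((1 : A) : Kˣ))).toMul * ψ g₀ := h1
    rw [kc_one, MonoidHom.one_apply, one_mul] at h2
    rw [h2]
    show (e (Additive.ofMul (1 : Kˣ))).toMul * ψ g₀ = ψ g₀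
    rw [ofMul_one, map_zero]
    exact one_mul _
  · intro b hb k hk
    have h1 := ha (⟨b, hb⟩, 1)
    have h2 : kc ⟨b, hb⟩ a * (1 : (M ≃ₐ[K] M) →* ℂˣ) a = (e (Additive.ofMul b)).toMul * (1 : (M ≃ₐ[K] M) →* ℂˣ) g₀ := h1
    rw [MonoidHom.one_apply, MonoidHom.one_apply, mul_one, mul_one, hk] at h2
    obtain ⟨i, hi⟩ := key a b hb
    rw [kc_apply ⟨b, hb⟩ a i hi] at h2
    have h3 : ξ ^ i = ξ ^ k := h2
    rw [hi, (pow_iff hpm hζ hξ i k).2 h3]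

end Pool.Agent.Q193.SH
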